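import Mathlib

set_option autoImplicit false

/-!
# Ruziewicz's question on moduli of continuity: the answer is yes
-/

open Set Filter Topology

namespace Pool.Agent.Results.MP_a2bddf_an.Ruziewicz

/-- The standing assumptions on a function of `h`, `0 < |h| < δ`: positive, depending only on
`|h|`, nondecreasing in `|h|`, tending to `0` as `h → 0`. -/
def Admissible (δ : ℝ) (w : ℝ → ℝ) : Prop :=
  (∀ h, 0 < |h| → |h| < δ → 0 < w h) ∧ (∀ h, 0 < |h| → |h| < δ → w h = w |h|) ∧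
  (∀ h k, 0 < |h| → |h| ≤ |k| → |k| < δ → w h ≤ w k) ∧ Tendsto w (𝓝[≠] 0) (𝓝 0)

/-- arbitrarily small `p` at which `w(h)/h`, `0 < h ≤ p`, is at least half of `w(p)/p` -/
lemma good_point {δ : ℝ} {w : ℝ → ℝ} (hw : ∀ h, 0 < h → h < δ → 0 < w h)
    (hlim : Tendsto (fun h => w h / h) (𝓝[>] 0) atTop)
    (hmono : ∀ h k, 0 < h → h ≤ k → k < δ → w h ≤ w k) {p₀ : ℝ} (hp₀ : 0 < p₀) (hp₀δ : p₀ < δ) :
    ∃ p, 0 < p ∧ p ≤ p₀ ∧ ∀ h, 0 < h → h ≤ p → w p / (2 * p) ≤ w h / h := by
  set m := sInf ((fun h => w h / h) '' Ioc 0 p₀) with hm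
  have hne : ((fun h => w h / h) '' Ioc 0 p₀).Nonempty := ⟨_, p₀, ⟨hp₀, le_refl _⟩, rfl⟩
  have hbdd : BddBelow ((fun h => w h / h) '' Ioc 0 p₀) := by
    refine ⟨0, ?_⟩
    rintro _ ⟨h, ⟨h1, h2⟩, rfl⟩
    exact (div_pos (hw h h1 (lt_of_le_of_lt h2 hp₀δ)) h1).le
  have hmpos : 0 < m := by
    obtain ⟨r, hr, hr2⟩ := mem_nhdsGT_iff_exists_Ioo_subset.1
      (hlim.eventually (eventually_ge_atTop (1 : ℝ)))
    have hr0 : (0 : ℝ) < r := hr
    set r' := min (r / 2) p₀ with hr'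
    have hr'0 : 0 < r' := lt_min (by linarith) hp₀
    have hr'p : r' ≤ p₀ := min_le_right _ _
    have hr'r : r' < r := lt_of_le_of_lt (min_le_left _ _) (by linarith)
    have hwr : 0 < w r' := hw r' hr'0 (lt_of_le_of_lt hr'p hp₀δ)
    refine lt_of_lt_of_le (lt_min one_pos (div_pos hwr hp₀)) (le_csInf hne ?_)
    rintro _ ⟨h, ⟨h1, h2⟩, rfl⟩
    rcases le_or_gt h r' with h3 | h3
    · exact (min_le_left _ _).trans (hr2 ⟨h1, lt_of_le_of_lt h3 hr'r⟩)
    · refine (min_le_right _ _).trans ?_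
      have h4 : w r' ≤ w h := hmono r' h hr'0 h3.le (lt_of_le_of_lt h2 hp₀δ)
      have h5 : 0 < w h := lt_of_lt_of_le hwr h4
      show w r' / p₀ ≤ w h / h
      exact div_le_div₀ h5.le h4 h1 h2
  obtain ⟨_, ⟨p, ⟨hp1, hp2⟩, rfl⟩, hp3⟩ := exists_lt_of_csInf_lt hne
    (show sInf ((fun h => w h / h) '' Ioc 0 p₀) < 2 * m by
      rw [← hm]; linarith)
  refine ⟨p, hp1, hp2, fun h h1 h2 => ?_⟩
  have h4 : m ≤ w h / h := csInf_le hbdd ⟨h, ⟨h1, h2.trans hp2⟩, rfl⟩
  have h5 : w p / (2 * p) = (w p / p) / 2 := by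
    field_simp
  simp only at hp3
  rw [h5]
  linarith

/-- the next scale -/
lemma step {δ : ℝ} {w φ : ℝ → ℝ} (hδ : 0 < δ) (hw : ∀ h, 0 < h → h < δ → 0 < w h)
    (hφ : ∀ h, 0 < h → h < δ → 0 < φ h)
    (hlim : Tendsto (fun h => w h / h) (𝓝[>] 0) atTop)
    (hlim2 : Tendsto (fun h => w h / φ h) (𝓝[>] 0) atTop)
    (hlim0 : Tendsto w (𝓝[>] 0) (𝓝 0))
    (hmono : ∀ h k, 0 < h → h ≤ k → k < δ → w h ≤ w k) {ε : ℝ} (hε : 0 < ε) (N S α : ℝ)
    (hα : 0 < α) (hN : 0 < N) :
    ∃ p, 0 < p ∧ p < δ ∧ p < 1 / N ∧ (∀ h, 0 < h → h ≤ p → w p / (2 * p) ≤ w h / h) ∧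
      N * φ p ≤ ε * w p ∧ p * S ≤ ε * w p ∧ w p ≤ α := by
  have e1 : ∀ᶠ h in 𝓝[>] (0 : ℝ), S / ε ≤ w h / h := hlim.eventually (eventually_ge_atTop _)
  have e2 : ∀ᶠ h in 𝓝[>] (0 : ℝ), N / ε ≤ w h / φ h := hlim2.eventually (eventually_ge_atTop _)
  have e3 : ∀ᶠ h in 𝓝[>] (0 : ℝ), w h < α := hlim0.eventually (gt_mem_nhds hα)
  have e4 : ∀ᶠ h in 𝓝[>] (0 : ℝ), h < δ := by
    filter_upwards [Ioo_mem_nhdsGT hδ] with h hh
    exact hh.2
  have e5 : ∀ᶠ h in 𝓝[>] (0 : ℝ), h < 1 / N := by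
    filter_upwards [Ioo_mem_nhdsGT (show (0 : ℝ) < 1 / N by positivity)] with h hh
    exact hh.2
  obtain ⟨r, hr, hr2⟩ := mem_nhdsGT_iff_exists_Ioo_subset.1
    (e1.and (e2.and (e3.and (e4.and e5))))
  have hr0 : (0 : ℝ) < r := hr
  have hmem := hr2 ⟨(show 0 < r / 2 by linarith), by linarith⟩
  obtain ⟨p, hp1, hp2, hp3⟩ := good_point hw hlim hmono (show 0 < r / 2 by linarith)
    hmem.2.2.2.1
  obtain ⟨h1, h2, h3, h4, h5⟩ := hr2 ⟨hp1, by linarith⟩
  have hφp := hφ p hp1 h4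
  refine ⟨p, hp1, h4, h5, hp3, ?_, ?_, h3.le⟩
  · rw [div_le_div_iff₀ hε hφp] at h2
    linarith
  · rw [div_le_div_iff₀ hε hp1] at h1
    linarith


lemma sin_jump (y : ℝ) : 1 / 2 ≤ |Real.sin (y + Real.pi) - Real.sin y| ∨
    1 / 2 ≤ |Real.sin (y + Real.pi / 2) - Real.sin y| := by
  rcases le_or_gt (1 / 4) |Real.sin y| with h | h
  · left
    rw [Real.sin_add_pi, show -Real.sin y - Real.sin y = -(2 * Real.sin y) by ring, abs_neg,
      abs_mul, abs_two]
    linarith
  · right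
    rw [Real.sin_add_pi_div_two]
    have h1 := Real.sin_sq_add_cos_sq y
    have h2 : Real.sin y ^ 2 < (1 / 4) ^ 2 := by
      rw [← sq_abs]
      exact pow_lt_pow_left₀ h (abs_nonneg _) (by norm_num)
    have h3 : (3 / 4) ^ 2 < |Real.cos y| ^ 2 := by
      rw [sq_abs]
      nlinarith
    have h4 : 3 / 4 < |Real.cos y| := lt_of_pow_lt_pow_left₀ 2 (abs_nonneg _) h3
    have h5 : |Real.cos y| ≤ |Real.cos y - Real.sin y| + |Real.sin y| := by
      have := abs_add_le (Real.cos y - Real.sin y) (Real.sin y)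
      rwa [sub_add_cancel] at this
    linarith

lemma sin_diff_le (x h p : ℝ) (hp : 0 < p) :
    |Real.sin (Real.pi * (x + h) / p) - Real.sin (Real.pi * x / p)| ≤ Real.pi * |h| / p := by
  have h1 := Real.abs_sin_sub_sin_le (Real.pi * (x + h) / p) (Real.pi * x / p)
  refine h1.trans (le_of_eq ?_)
  rw [show Real.pi * (x + h) / p - Real.pi * x / p = Real.pi * h / p by ring, abs_div, abs_mul,
    abs_of_pos Real.pi_pos, abs_of_pos hp]

lemma sin_diff_le_two (x y : ℝ) : |Real.sin x - Real.sin y| ≤ 2 := by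
  have h1 := Real.abs_sin_le_one x
  have h2 := Real.abs_sin_le_one y
  have h3 := abs_sub (Real.sin x) (Real.sin y)
  linarith

/-- The construction, for functions of `h > 0`. -/
lemma construct {δ : ℝ} {w φ : ℝ → ℝ} (hδ : 0 < δ) (hw : ∀ h, 0 < h → h < δ → 0 < w h)
    (hφ : ∀ h, 0 < h → h < δ → 0 < φ h)
    (hlim : Tendsto (fun h => w h / h) (𝓝[>] 0) atTop)
    (hlim2 : Tendsto (fun h => w h / φ h) (𝓝[>] 0) atTop)
    (hlim0 : Tendsto w (𝓝[>] 0) (𝓝 0))
    (hmono : ∀ h k, 0 < h → h ≤ k → k < δ → w h ≤ w k)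
    (hφmono : ∀ h k, 0 < h → h ≤ k → k < δ → φ h ≤ φ k) :
    ∃ f : ℝ → ℝ, (∀ x h, 0 < |h| → |h| < δ → |f (x + h) - f x| < w |h|) ∧
      ∀ x : ℝ, ∀ n : ℕ, ∃ h, 0 < h ∧ h < δ ∧ h ≤ 1 / ((n : ℝ) + 1) ∧
        ((n : ℝ) + 1) / 4 * φ h ≤ |f (x + h) - f x| := by
  have hπ := Real.pi_pos
  set ε : ℕ → ℝ := fun k => (1 / 2) ^ k / 32 with hεdef
  have hε : ∀ k, 0 < ε k := fun k => by rw [hεdef]; positivity
  have hstep : ∀ (k : ℕ) (a S : ℝ), ∃ p, 0 < a → (0 < p ∧ p < δ ∧ p < 1 / ((k : ℝ) + 1) ∧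
      (∀ h, 0 < h → h ≤ p → w p / (2 * p) ≤ w h / h) ∧
      ((k : ℝ) + 1) * φ p ≤ ε k * w p ∧ p * S ≤ ε k * w p ∧ w p ≤ a / 32) := by
    intro k a S
    by_cases ha : 0 < a
    · obtain ⟨p, hp⟩ := step hδ hw hφ hlim hlim2 hlim0 hmono (hε k) ((k : ℝ) + 1) S (a / 32)
        (by positivity) (by positivity)
      exact ⟨p, fun _ => hp⟩
    · exact ⟨0, fun h => absurd h ha⟩
  choose g hg using hstep
  set st : ℕ → ℝ × ℝ := fun n => Nat.rec (32, 0)
    (fun k q => (ε k * w (g k q.1 q.2), q.2 + 8 * Real.pi * (ε k * w (g k q.1 q.2)) / g k q.1 q.2)) n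
    with hst
  have hst0 : st 0 = (32, 0) := rfl
  set p : ℕ → ℝ := fun k => g k (st k).1 (st k).2 with hp
  set a : ℕ → ℝ := fun k => ε k * w (p k) with ha
  have hsts : ∀ k, st (k + 1) = (a k, (st k).2 + 8 * Real.pi * a k / p k) := fun k => rfl
  have hpos : ∀ k, 0 < (st k).1 := by
    intro k
    induction k with
    | zero => rw [hst0]; norm_num
    | succ k ih =>
      rw [hsts]
      have h1 := hg k (st k).1 (st k).2 ih
      exact mul_pos (hε k) (hw _ h1.1 h1.2.1)
  have hG := fun k => hg k (st k).1 (st k).2 (hpos k)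
  have hp0 : ∀ k, 0 < p k := fun k => (hG k).1
  have hpδ : ∀ k, p k < δ := fun k => (hG k).2.1
  have ha0 : ∀ k, 0 < a k := fun k => mul_pos (hε k) (hw _ (hp0 k) (hpδ k))
  have hS : ∀ k, (st k).2 = ∑ j ∈ Finset.range k, 8 * Real.pi * a j / p j := by
    intro k
    induction k with
    | zero => rw [hst0]; simp
    | succ k ih => rw [hsts, Finset.sum_range_succ, ← ih]
  have hε1 : ∀ k, ε k ≤ 1 / 32 := by
    intro k
    rw [hεdef]
    simp only
    have : ((1 : ℝ) / 2) ^ k ≤ 1 := pow_le_one₀ (by norm_num) (by norm_num)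
    linarith
  have hdec : ∀ k, a (k + 1) ≤ a k / 32 := by
    intro k
    have h1 : w (p (k + 1)) ≤ (st (k + 1)).1 / 32 := (hG (k + 1)).2.2.2.2.2.2
    rw [hsts] at h1
    have h2 := hε1 (k + 1)
    have h3 := hw _ (hp0 (k + 1)) (hpδ (k + 1))
    have h4 : a (k + 1) ≤ 1 * w (p (k + 1)) := by
      apply mul_le_mul_of_nonneg_right _ h3.le
      linarith
    simp only at h1
    linarith
  have hgeo : ∀ k j, a (k + j) ≤ a k * (1 / 32) ^ j := by
    intro k j
    induction j with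
    | zero => simp
    | succ j ih =>
      have := hdec (k + j)
      rw [← add_assoc, pow_succ]
      linarith
  have hsum : Summable a := by
    have h1 : Summable fun j : ℕ => a 0 * (1 / 32 : ℝ) ^ j :=
      (summable_geometric_of_lt_one (by norm_num) (by norm_num)).mul_left _
    refine Summable.of_nonneg_of_le (fun k => (ha0 k).le) (fun k => ?_) h1
    have := hgeo 0 k
    rwa [zero_add] at this
  set F : ℝ → ℕ → ℝ := fun x k => a k * Real.sin (Real.pi * x / p k) with hF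
  have hFs : ∀ x, Summable (F x) := by
    intro x
    refine Summable.of_norm_bounded hsum fun k => ?_
    rw [Real.norm_eq_abs, hF]
    simp only
    rw [abs_mul, abs_of_pos (ha0 k)]
    have := Real.abs_sin_le_one (Real.pi * x / p k)
    have h2 := ha0 k
    nlinarith
  set d : ℝ → ℝ → ℕ → ℝ := fun x h k => F (x + h) k - F x k with hd
  have hds : ∀ x h, Summable (d x h) := fun x h => (hFs (x + h)).sub (hFs x)
  have hdabs : ∀ x h k, |d x h k| =
      a k * |Real.sin (Real.pi * (x + h) / p k) - Real.sin (Real.pi * x / p k)| := by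
    intro x h k
    rw [hd, hF]
    simp only
    rw [← mul_sub, abs_mul, abs_of_pos (ha0 k)]
  refine ⟨fun x => ∑' k, F x k, ?_, ?_⟩
  · intro x h hh hhδ
    simp only
    rw [← (hFs (x + h)).tsum_sub (hFs x)]
    have hb : ∀ k, |d x h k| ≤ 8 * ε k * w |h| := by
      intro k
      rw [hdabs]
      have hwh := hw _ hh hhδ
      have hpk := hp0 k
      have hek := hε k
      rcases le_or_gt |h| (p k) with h1 | h1
      · have h2 := sin_diff_le x h (p k) hpk
        have h3 := (hG k).2.2.2.1 |h| hh h1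
        calc a k * |Real.sin (Real.pi * (x + h) / p k) - Real.sin (Real.pi * x / p k)|
            ≤ a k * (Real.pi * |h| / p k) := mul_le_mul_of_nonneg_left h2 (ha0 k).le
          _ = 2 * Real.pi * ε k * (w (p k) / (2 * p k)) * |h| := by
              rw [ha]; field_simp
          _ ≤ 2 * Real.pi * ε k * (w |h| / |h|) * |h| := by
              apply mul_le_mul_of_nonneg_right _ hh.le
              apply mul_le_mul_of_nonneg_left h3 (by positivity)
          _ = 2 * Real.pi * (ε k * w |h|) := by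
              field_simp
          _ ≤ 2 * 4 * (ε k * w |h|) := by
              apply mul_le_mul_of_nonneg_right _ (by positivity)
              linarith [Real.pi_le_four]
          _ = 8 * ε k * w |h| := by ring
      · have h2 := sin_diff_le_two (Real.pi * (x + h) / p k) (Real.pi * x / p k)
        have h3 := hmono (p k) |h| hpk h1.le hhδ
        have h4 := hw _ hpk (hpδ k)
        calc a k * |Real.sin (Real.pi * (x + h) / p k) - Real.sin (Real.pi * x / p k)|
            ≤ a k * 2 := mul_le_mul_of_nonneg_left h2 (ha0 k).le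
          _ = 2 * ε k * w (p k) := by rw [ha]; ring
          _ ≤ 2 * ε k * w |h| := mul_le_mul_of_nonneg_left h3 (by positivity)
          _ ≤ 8 * ε k * w |h| := by nlinarith [mul_pos hek hwh]
    have hsumε : HasSum (fun k => 8 * ε k * w |h|) (w |h| / 2) := by
      have h1 : HasSum (fun k : ℕ => ((1 : ℝ) / 2) ^ k) 2 := hasSum_geometric_two
      have h2 := h1.mul_left (w |h| / 4)
      rw [show w |h| / 4 * 2 = w |h| / 2 by ring] at h2
      refine h2.congr_fun (fun k => ?_) |> fun H => H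
      rw [hεdef]
      simp only
      ring
    have h3 : |∑' k, d x h k| ≤ w |h| / 2 := by
      rw [← Real.norm_eq_abs]
      exact tsum_of_norm_bounded hsumε (fun k => by rw [Real.norm_eq_abs]; exact hb k)
    have h4 := hw _ hh hhδ
    have h5 : ∑' k, (F (x + h) k - F x k) = ∑' k, d x h k := rfl
    rw [h5]
    linarith
  · intro x n
    -- choice of `h`
    have hpn := hp0 n
    obtain ⟨h, hh0, hhp, hjump⟩ : ∃ h, 0 < h ∧ h ≤ p n ∧
        1 / 2 ≤ |Real.sin (Real.pi * (x + h) / p n) - Real.sin (Real.pi * x / p n)| := by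
      rcases sin_jump (Real.pi * x / p n) with h1 | h1
      · refine ⟨p n, hpn, le_refl _, ?_⟩
        rwa [show Real.pi * (x + p n) / p n = Real.pi * x / p n + Real.pi by field_simp]
      · refine ⟨p n / 2, by linarith, by linarith, ?_⟩
        rwa [show Real.pi * (x + p n / 2) / p n = Real.pi * x / p n + Real.pi / 2 by field_simp]
    refine ⟨h, hh0, lt_of_le_of_lt hhp (hpδ n), hhp.trans (hG n).2.2.1.le, ?_⟩
    simp only
    rw [← (hFs (x + h)).tsum_sub (hFs x)]
    have h5 : ∑' k, (F (x + h) k - F x k) = ∑' k, d x h k := rfl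
    rw [h5, ← (hds x h).sum_add_tsum_nat_add (n + 1), Finset.sum_range_succ]
    -- the first terms
    have hA : |∑ j ∈ Finset.range n, d x h j| ≤ a n / 8 := by
      calc |∑ j ∈ Finset.range n, d x h j| ≤ ∑ j ∈ Finset.range n, |d x h j| :=
            Finset.abs_sum_le_sum_abs _ _
        _ ≤ ∑ j ∈ Finset.range n, p n / 8 * (8 * Real.pi * a j / p j) := by
            apply Finset.sum_le_sum
            intro j _
            rw [hdabs]
            have h2 := sin_diff_le x h (p j) (hp0 j)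
            have h3 := hp0 j
            have h4 := ha0 j
            rw [abs_of_pos hh0] at h2
            calc a j * |Real.sin (Real.pi * (x + h) / p j) - Real.sin (Real.pi * x / p j)|
                ≤ a j * (Real.pi * h / p j) := mul_le_mul_of_nonneg_left h2 h4.le
              _ ≤ a j * (Real.pi * p n / p j) := by
                  apply mul_le_mul_of_nonneg_left _ h4.le
                  apply div_le_div_of_nonneg_right _ h3.le
                  exact mul_le_mul_of_nonneg_left hhp hπ.le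
              _ = p n / 8 * (8 * Real.pi * a j / p j) := by ring
        _ = p n * (st n).2 / 8 := by
            rw [← Finset.mul_sum, ← hS]
            ring
        _ ≤ a n / 8 := by
            apply div_le_div_of_nonneg_right _ (by norm_num)
            exact (hG n).2.2.2.2.2.1
    have hB : |∑' j, d x h (j + (n + 1))| ≤ a n * (2 / 31) := by
      have h1 : HasSum (fun j : ℕ => 2 * a n * (1 / 32) * (1 / 32 : ℝ) ^ j)
          (2 * a n * (1 / 32) * (1 - 1 / 32)⁻¹) :=
        (hasSum_geometric_of_lt_one (by norm_num) (by norm_num)).mul_left _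
      rw [show 2 * a n * (1 / 32) * (1 - 1 / 32)⁻¹ = a n * (2 / 31) by norm_num; ring] at h1
      rw [← Real.norm_eq_abs]
      refine tsum_of_norm_bounded h1 fun j => ?_
      rw [Real.norm_eq_abs, hdabs]
      have h2 := sin_diff_le_two (Real.pi * (x + h) / p (j + (n + 1)))
        (Real.pi * x / p (j + (n + 1)))
      have h3 := hgeo n (j + 1)
      rw [show n + (j + 1) = j + (n + 1) by ring] at h3
      have h4 := ha0 (j + (n + 1))
      calc a (j + (n + 1)) * |Real.sin (Real.pi * (x + h) / p (j + (n + 1))) -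
            Real.sin (Real.pi * x / p (j + (n + 1)))|
          ≤ a (j + (n + 1)) * 2 := mul_le_mul_of_nonneg_left h2 h4.le
        _ ≤ (a n * (1 / 32) ^ (j + 1)) * 2 := mul_le_mul_of_nonneg_right h3 (by norm_num)
        _ = 2 * a n * (1 / 32) * (1 / 32 : ℝ) ^ j := by ring
    have hC : a n / 2 ≤ |d x h n| := by
      rw [hdabs]
      have h4 := ha0 n
      nlinarith
    have hD : a n / 4 ≤ |∑ j ∈ Finset.range n, d x h j + d x h n + ∑' j, d x h (j + (n + 1))| := by
      have h1 : |d x h n| ≤ |∑ j ∈ Finset.range n, d x h j + d x h n + ∑' j, d x h (j + (n + 1))| +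
          |∑ j ∈ Finset.range n, d x h j| + |∑' j, d x h (j + (n + 1))| := by
        have e1 := abs_sub (∑ j ∈ Finset.range n, d x h j + d x h n + ∑' j, d x h (j + (n + 1)) -
          ∑ j ∈ Finset.range n, d x h j) (∑' j, d x h (j + (n + 1)))
        have e2 := abs_sub (∑ j ∈ Finset.range n, d x h j + d x h n + ∑' j, d x h (j + (n + 1)))
          (∑ j ∈ Finset.range n, d x h j)
        have e3 : ∑ j ∈ Finset.range n, d x h j + d x h n + ∑' j, d x h (j + (n + 1)) -
          ∑ j ∈ Finset.range n, d x h j - ∑' j, d x h (j + (n + 1)) = d x h n := by ring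
        rw [e3] at e1
        linarith
      have h4 := ha0 n
      linarith
    refine le_trans ?_ hD
    have h6 := (hG n).2.2.2.2.1
    have h7 := hφmono h (p n) hh0 hhp (hpδ n)
    have h8 : ((n : ℝ) + 1) * φ h ≤ ((n : ℝ) + 1) * φ (p n) :=
      mul_le_mul_of_nonneg_left h7 (by positivity)
    have h9 : a n = ε n * w (p n) := rfl
    linarith

/-- Ruziewicz's question has a positive answer: for all `δ`, `w`, `φ` as in the question there is
`f : ℝ → ℝ` satisfying (1) and (2). -/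
theorem result : ∀ (δ : ℝ) (w φ : ℝ → ℝ), 0 < δ → Admissible δ w → Admissible δ φ →
    Tendsto (fun h => w h / |h|) (𝓝[≠] 0) atTop → Tendsto (fun h => w h / φ h) (𝓝[≠] 0) atTop →
    ∃ f : ℝ → ℝ, (∀ x h, 0 < |h| → |h| < δ → |f (x + h) - f x| < w h) ∧
      ∀ x, limsup (fun h => ENNReal.ofReal |(f (x + h) - f x) / φ h|) (𝓝[≠] 0) = ⊤ := by
  intro δ w φ hδ hw hφ hlim1 hlim2
  have hle : 𝓝[>] (0 : ℝ) ≤ 𝓝[≠] 0 := nhdsWithin_mono _ (fun x hx => ne_of_gt hx)
  have hw1 : ∀ h, 0 < h → h < δ → 0 < w h := fun h h1 h2 =>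
    hw.1 h (by rwa [abs_of_pos h1]) (by rwa [abs_of_pos h1])
  have hφ1 : ∀ h, 0 < h → h < δ → 0 < φ h := fun h h1 h2 =>
    hφ.1 h (by rwa [abs_of_pos h1]) (by rwa [abs_of_pos h1])
  have hwm : ∀ h k, 0 < h → h ≤ k → k < δ → w h ≤ w k := fun h k h1 h2 h3 =>
    hw.2.2.1 h k (by rwa [abs_of_pos h1]) (by rwa [abs_of_pos h1, abs_of_pos (h1.trans_le h2)])
      (by rwa [abs_of_pos (h1.trans_le h2)])
  have hφm : ∀ h k, 0 < h → h ≤ k → k < δ → φ h ≤ φ k := fun h k h1 h2 h3 =>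
    hφ.2.2.1 h k (by rwa [abs_of_pos h1]) (by rwa [abs_of_pos h1, abs_of_pos (h1.trans_le h2)])
      (by rwa [abs_of_pos (h1.trans_le h2)])
  have hl1 : Tendsto (fun h => w h / h) (𝓝[>] 0) atTop := by
    refine (hlim1.mono_left hle).congr' ?_
    filter_upwards [self_mem_nhdsWithin] with h hh
    rw [abs_of_pos hh]
  obtain ⟨f, hf1, hf2⟩ := construct hδ hw1 hφ1 hl1 (hlim2.mono_left hle)
    (hw.2.2.2.mono_left hle) hwm hφm
  refine ⟨f, fun x h h1 h2 => ?_, fun x => ?_⟩
  · rw [hw.2.1 h h1 h2]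
    exact hf1 x h h1 h2
  · apply top_le_iff.1
    apply le_of_forall_lt
    intro c hc
    obtain ⟨C, hC1, hC2⟩ := ENNReal.lt_iff_exists_nnreal_btwn.1 hc
    refine lt_of_lt_of_le hC1 ?_
    apply le_limsup_of_frequently_le
    · rw [Filter.frequently_iff]
      intro U hU
      rw [mem_nhdsWithin] at hU
      obtain ⟨V, hV1, hV2, hV3⟩ := hU
      obtain ⟨r, hr, hr2⟩ := Metric.isOpen_iff.1 hV1 0 hV2
      obtain ⟨n, hn⟩ := exists_nat_gt (max (4 * (C : ℝ)) (1 / r))
      have hn1 : 4 * (C : ℝ) < n := lt_of_le_of_lt (le_max_left _ _) hn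
      have hn2 : 1 / r < n := lt_of_le_of_lt (le_max_right _ _) hn
      obtain ⟨h, hh0, hhδ, hhn, hhf⟩ := hf2 x n
      refine ⟨h, hV3 ⟨hr2 ?_, hh0.ne'⟩, ?_⟩
      · rw [Metric.mem_ball, dist_zero_right, Real.norm_eq_abs, abs_of_pos hh0]
        refine lt_of_le_of_lt hhn ?_
        rw [div_lt_iff₀ (by positivity)]
        rw [div_lt_iff₀ hr] at hn2
        nlinarith
      · rw [← ENNReal.ofReal_coe_nnreal]
        apply ENNReal.ofReal_le_ofReal
        have hφh := hφ1 h hh0 hhδ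
        rw [abs_div, abs_of_pos hφh, le_div_iff₀ hφh]
        refine le_trans ?_ hhf
        apply mul_le_mul_of_nonneg_right _ hφh.le
        linarith
    · isBoundedDefault

end Pool.Agent.Results.MP_a2bddf_an.Ruziewicz
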